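import Mathlib

set_option autoImplicit false

namespace Pool.Agent.H.MP_bbd7c2_al

open Subgroup

/-- normal series whose index ratios satisfy `P`, or `Q` at the at most `m` marked places -/
def Ser (G : Type) [Group G] (P Q : ℕ → Prop) (m : ℕ) : Prop :=
  ∃ (k : ℕ) (s : ℕ → Subgroup G) (T : Finset ℕ), T.card ≤ m ∧ s 0 = ⊥ ∧ s k = ⊤ ∧
    (∀ i ≤ k, (s i).Normal) ∧ (∀ i < k, s i ≤ s (i + 1)) ∧
    ∀ i < k, P ((s i).relIndex (s (i + 1))) ∨ (i ∈ T ∧ Q ((s i).relIndex (s (i + 1))))

theorem ratio {G : Type} [Group G] [Finite G] {A B : Subgroup G} (h : A ≤ B) :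
    Nat.card B / Nat.card A = A.relIndex B := by
  have h1 : Nat.card (A.subgroupOf B) * (A.subgroupOf B).index = Nat.card B := card_mul_index _
  have h2 : Nat.card (A.subgroupOf B) = Nat.card A :=
    Nat.card_congr (subgroupOfEquivOfLe h).toEquiv
  rw [← h1, h2, Nat.mul_div_cancel_left _ Nat.card_pos]
  rfl

theorem ser_triv (G : Type) [Group G] [Subsingleton G] (P Q : ℕ → Prop) : Ser G P Q 0 := by
  refine ⟨0, fun _ => ⊥, ∅, by simp, rfl, Subsingleton.elim _ _, fun _ _ => inferInstance,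
    fun i hi => absurd hi (by omega), fun i hi => absurd hi (by omega)⟩

theorem ser_lift {G W : Type} [Group G] [Group W] (f : G →* W) (hf : Function.Surjective f)
    {P Q : ℕ → Prop} {m : ℕ} (h : Ser W P Q m) :
    (P (Nat.card f.ker) → Ser G P Q m) ∧ (Q (Nat.card f.ker) → Ser G P Q (m + 1)) := by
  obtain ⟨k, s, T, hT, h0, hk, hn, hle, hr⟩ := h
  let s' : ℕ → Subgroup G := fun i => Nat.casesOn i ⊥ (fun j => (s j).comap f)
  have e0 : s' 0 = ⊥ := rfl
  have es : ∀ j, s' (j + 1) = (s j).comap f := fun _ => rfl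
  have ek : s' (k + 1) = ⊤ := by rw [es, hk, comap_top]
  have en : ∀ i ≤ k + 1, (s' i).Normal := by
    intro i hi
    cases i with
    | zero => rw [e0]; infer_instance
    | succ j => rw [es]; exact (hn j (by omega)).comap f
  have ele : ∀ i < k + 1, s' i ≤ s' (i + 1) := by
    intro i hi
    cases i with
    | zero => rw [e0]; exact bot_le
    | succ j => rw [es, es]; exact comap_mono (hle j (by omega))
  have er0 : (s' 0).relIndex (s' (0 + 1)) = Nat.card f.ker := by
    rw [e0, es, h0, relIndex_bot_left, MonoidHom.comap_bot]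
  have ers : ∀ j, (s' (j + 1)).relIndex (s' (j + 1 + 1)) = (s j).relIndex (s (j + 1)) := by
    intro j
    rw [es, es, relIndex_comap, map_comap_eq_self_of_surjective hf]
  constructor
  · intro hP
    refine ⟨k + 1, s', T.image (· + 1), le_trans Finset.card_image_le hT, e0, ek, en, ele, ?_⟩
    intro i hi
    cases i with
    | zero => left; rw [er0]; exact hP
    | succ j =>
      rw [ers]
      rcases hr j (by omega) with h | h
      · exact Or.inl h
      · exact Or.inr ⟨Finset.mem_image_of_mem _ h.1, h.2⟩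
  · intro hQ
    refine ⟨k + 1, s', insert 0 (T.image (· + 1)), ?_, e0, ek, en, ele, ?_⟩
    · exact le_trans (Finset.card_insert_le _ _)
        (Nat.succ_le_succ (le_trans Finset.card_image_le hT))
    intro i hi
    cases i with
    | zero => right; rw [er0]; exact ⟨Finset.mem_insert_self _ _, hQ⟩
    | succ j =>
      rw [ers]
      rcases hr j (by omega) with h | h
      · exact Or.inl h
      · exact Or.inr ⟨Finset.mem_insert_of_mem (Finset.mem_image_of_mem _ h.1), h.2⟩

theorem ratio_map {G W : Type} [Group G] [Group W] (f : G →* W) (A B : Subgroup G) :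
    (A.map f).relIndex (B.map f) ∣ A.relIndex B := by
  rw [← relIndex_comap]
  exact relIndex_dvd_of_le_left _ (le_comap_map f A)

/-- all prime divisors lie in `S` -/
def In (S : Set ℕ) (n : ℕ) : Prop := ∀ q : ℕ, q.Prime → q ∣ n → q ∈ S
/-- no prime divisor lies in `S` -/
def Out (S : Set ℕ) (n : ℕ) : Prop := ∀ q : ℕ, q.Prime → q ∣ n → q ∉ S

theorem cop {S : Set ℕ} {a b : ℕ} (ha : In S a) (hb : Out S b) : Nat.Coprime a b := by
  apply Nat.coprime_of_dvd
  intro q hq h1 h2
  exact hb q hq h2 (ha q hq h1)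

theorem eq_bot_of_cop {G : Type} [Group G] [Finite G] (N V : Subgroup G) [N.Normal] [V.Normal]
    (hV : centralizer (V : Set G) ≤ V) (h : Nat.Coprime (Nat.card N) (Nat.card V)) : N = ⊥ := by
  have hd : Disjoint N V := Subgroup.disjoint_of_coprime_natCard h
  have hle : N ≤ V := by
    intro x hx
    apply hV
    rw [mem_centralizer_iff]
    intro v hv
    exact (commute_of_normal_of_disjoint N V inferInstance inferInstance hd x v hx hv).symm.eq
  exact hd.eq_bot_of_le hle

theorem ser_down {G W : Type} [Group G] [Group W] (f : G →* W) (hf : Function.Surjective f)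
    {S : Set ℕ} {m : ℕ} (h : Ser G (Out S) (In S) m) : Ser W (Out S) (In S) m := by
  obtain ⟨k, s, T, hT, h0, hk, hn, hle, hr⟩ := h
  refine ⟨k, fun i => (s i).map f, T, hT, by simp [h0], ?_, fun i hi => (hn i hi).map f hf,
    fun i hi => map_mono (hle i hi), ?_⟩
  · show (s k).map f = ⊤
    rw [hk]; exact map_top_of_surjective f hf
  · intro i hi
    rcases hr i hi with h | h
    · exact Or.inl fun q hq hd => h q hq (hd.trans (ratio_map f _ _))
    · exact Or.inr ⟨h.1, fun q hq hd => h.2 q hq (hd.trans (ratio_map f _ _))⟩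

theorem ser_drop {G W : Type} [Group G] [Group W] [Finite G] [Finite W] (f : G →* W)
    (hf : Function.Surjective f) {S : Set ℕ} (hne : f.ker ≠ ⊥)
    (hV : centralizer (f.ker : Set G) ≤ f.ker) (hVS : In S (Nat.card f.ker))
    (U : Subgroup W) [U.Normal] (hU : centralizer (U : Set W) ≤ U) (hUS : Out S (Nat.card U))
    {m : ℕ} (h : Ser G (Out S) (In S) m) : ∃ m', m = m' + 1 ∧ Ser W (Out S) (In S) m' := by
  classical
  obtain ⟨k, s, T, hT, h0, hk, hn, hle, hr⟩ := h
  have hkne : s k ≠ ⊥ := by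
    rw [hk]
    intro h
    exact hne (eq_bot_iff.2 (h ▸ le_top))
  have hex : ∃ j, s j ≠ ⊥ := ⟨k, hkne⟩
  have hj0 : Nat.find hex ≠ 0 := by
    intro h
    have := Nat.find_spec hex
    rw [h] at this
    exact this h0
  obtain ⟨j, hj⟩ := Nat.exists_eq_succ_of_ne_zero hj0
  have hjk : j < k := by
    have := Nat.find_min' hex hkne
    omega
  have hsj : s j = ⊥ := by
    have := Nat.find_min hex (m := j) (by omega)
    simpa using this
  have hsj1 : s (j + 1) ≠ ⊥ := by
    have := Nat.find_spec hex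
    rwa [hj] at this
  have := hn (j + 1) (by omega)
  have hrj := hr j hjk
  rw [hsj, relIndex_bot_left] at hrj
  rcases hrj with hrj | hrj
  · exact absurd (eq_bot_of_cop _ _ hV (cop hVS hrj).symm) hsj1
  have hmap : (s (j + 1)).map f = ⊥ := by
    have := (hn (j + 1) (by omega)).map f hf
    refine eq_bot_of_cop _ _ hU (cop ?_ hUS)
    exact fun q hq hd => hrj.2 q hq (hd.trans (card_map_dvd _ f))
  have hpos : 0 < T.card := Finset.card_pos.2 ⟨j, hrj.1⟩
  refine ⟨m - 1, by omega, k, fun i => (s i).map f, T.erase j, ?_, by simp [h0], ?_,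
    fun i hi => (hn i hi).map f hf, fun i hi => map_mono (hle i hi), ?_⟩
  · rw [Finset.card_erase_of_mem hrj.1]; omega
  · show (s k).map f = ⊤
    rw [hk]; exact map_top_of_surjective f hf
  · intro i hi
    by_cases hij : i = j
    · left
      subst hij
      show Out S (((s i).map f).relIndex ((s (i + 1)).map f))
      rw [hmap, relIndex_bot_right]
      intro q hq hd
      exact absurd (Nat.le_of_dvd one_pos hd) (by have := hq.two_le; omega)
    rcases hr i hi with h | h
    · exact Or.inl fun q hq hd => h q hq (hd.trans (ratio_map f _ _))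
    · exact Or.inr ⟨Finset.mem_erase.2 ⟨hij, h.1⟩,
        fun q hq hd => h.2 q hq (hd.trans (ratio_map f _ _))⟩

/-- Hall subgroup for `S` -/
def Hall {G : Type} [Group G] (S : Set ℕ) (H : Subgroup G) : Prop :=
  In S (Nat.card H) ∧ Out S H.index

theorem card_eq {G W : Type} [Group G] [Group W] (f : G →* W) (hf : Function.Surjective f) :
    Nat.card G = Nat.card f.ker * Nat.card W := by
  rw [← card_mul_index f.ker, index_ker, MonoidHom.range_eq_top.2 hf, card_top]

theorem hall_in {G W : Type} [Group G] [Group W] [Finite G] [Finite W] (f : G →* W)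
    (hf : Function.Surjective f) {S : Set ℕ} (hVS : In S (Nat.card f.ker))
    (h : ∃ H : Subgroup W, Hall S H) : ∃ H : Subgroup G, Hall S H := by
  obtain ⟨H, h1, h2⟩ := h
  have hi : (H.comap f).index = H.index := index_comap_of_surjective H hf
  refine ⟨H.comap f, ?_, hi ▸ h2⟩
  have e1 := card_mul_index (H.comap f)
  rw [hi, card_eq f hf, ← card_mul_index H, ← mul_assoc] at e1
  have e2 := Nat.eq_of_mul_eq_mul_right (Nat.pos_of_ne_zero index_ne_zero_of_finite) e1
  rw [e2]
  intro q hq hd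
  rcases (Nat.Prime.dvd_mul hq).1 hd with h | h
  · exact hVS q hq h
  · exact h1 q hq h

theorem hall_out {G W : Type} [Group G] [Group W] [Finite G] [Finite W] (f : G →* W)
    (σ : W →* G) (hσ : ∀ w, f (σ w) = w) {S : Set ℕ} (hVS : Out S (Nat.card f.ker))
    (h : ∃ H : Subgroup W, Hall S H) : ∃ H : Subgroup G, Hall S H := by
  obtain ⟨H, h1, h2⟩ := h
  have hf : Function.Surjective f := fun w => ⟨σ w, hσ w⟩
  have hinj : Function.Injective σ := fun a b h => by rw [← hσ a, ← hσ b, h]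
  have hc : Nat.card (H.map σ) = Nat.card H := card_map_of_injective hinj
  refine ⟨H.map σ, hc ▸ h1, ?_⟩
  have e1 := card_mul_index (H.map σ)
  rw [hc, card_eq f hf, ← card_mul_index H, mul_left_comm] at e1
  have e2 := Nat.eq_of_mul_eq_mul_left Nat.card_pos e1
  rw [e2]
  intro q hq hd
  rcases (Nat.Prime.dvd_mul hq).1 hd with h | h
  · exact hVS q hq h
  · exact h2 q hq h

theorem nil {H : Type} [Group H] [Finite H] (A B : Subgroup H) [A.Normal] {p e : ℕ}
    (hp : p.Prime) (h : A.relIndex B = p ^ e) :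
    ∃ c : ℕ, (fun K : Subgroup H => ⁅K, B⁆)^[c] B ≤ A := by
  have := Fact.mk hp
  have hc : Nat.card (B.map (QuotientGroup.mk' A)) = p ^ e := by
    rw [← h, ← relIndex_ker, QuotientGroup.ker_mk']
  have hn : Group.IsNilpotent (B.map (QuotientGroup.mk' A)) :=
    (IsPGroup.of_card hc).isNilpotent
  obtain ⟨c, hcc⟩ := (isNilpotent_iff_lowerCentralSeries _).1 hn
  refine ⟨c, ?_⟩
  have : ∀ n, (fun K : Subgroup H => ⁅K, B⁆)^[n] B = B.lowerCentralSeries n := by
    intro n
    induction n with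
    | zero => rfl
    | succ n ih => rw [Function.iterate_succ_apply', ih]; rfl
  rw [this]
  rw [← map_lowerCentralSeries, Subgroup.map_eq_bot_iff, QuotientGroup.ker_mk'] at hcc
  exact hcc

/-- wreath layer -/
abbrev L (p : ℕ) (W : Type) [Group W] : Type := RegularWreathProduct (Multiplicative (ZMod p)) W

/-- projection -/
abbrev pr (p : ℕ) (W : Type) [Group W] : L p W →* W := RegularWreathProduct.rightHom

theorem pr_surj (p : ℕ) (W : Type) [Group W] : Function.Surjective (pr p W) :=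
  fun w => ⟨RegularWreathProduct.inl w, rfl⟩

theorem card_ker (p : ℕ) [NeZero p] (W : Type) [Group W] [Finite W] :
    Nat.card (pr p W).ker = p ^ Nat.card W := by
  have e1 := card_eq (pr p W) (pr_surj p W)
  rw [RegularWreathProduct.card] at e1
  have e2 := Nat.eq_of_mul_eq_mul_right Nat.card_pos e1
  rw [← e2]
  simp

theorem self_cent (p : ℕ) [Fact p.Prime] (W : Type) [Group W] :
    centralizer ((pr p W).ker : Set (L p W)) ≤ (pr p W).ker := by
  classical
  intro x hx
  rw [mem_centralizer_iff] at hx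
  have hd : (Multiplicative.ofAdd (1 : ZMod p)) ≠ 1 := by simp
  have := hx ⟨Pi.mulSingle 1 (Multiplicative.ofAdd (1 : ZMod p)), 1⟩ (by
    show _ ∈ (pr p W).ker
    rw [MonoidHom.mem_ker]; rfl)
  have h2 := congrArg (fun y => RegularWreathProduct.left y 1) this
  simp only [RegularWreathProduct.mul_left, Pi.mul_apply, inv_one, mul_one,
    Pi.mulSingle_eq_same] at h2
  rw [mul_comm] at h2
  have h3 := mul_left_cancel h2
  rw [MonoidHom.mem_ker]
  show x.right = 1
  by_contra hne
  rw [Pi.mulSingle_eq_of_ne (by simpa using hne)] at h3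
  exact hd h3

theorem ker_ne (p : ℕ) [hp : Fact p.Prime] (W : Type) [Group W] [Finite W] :
    (pr p W).ker ≠ ⊥ := by
  intro h
  have := card_ker p W
  rw [h, card_bot] at this
  have h1 : 1 < p ^ Nat.card W := Nat.one_lt_pow (Nat.card_pos.ne') hp.out.one_lt
  omega

theorem in_pow {S : Set ℕ} {p : ℕ} (hp : p.Prime) (h : p ∈ S) (e : ℕ) : In S (p ^ e) := by
  intro q hq hd
  rwa [(Nat.prime_dvd_prime_iff_eq hq hp).1 (hq.dvd_of_dvd_pow hd)]

theorem out_pow {S : Set ℕ} {p : ℕ} (hp : p.Prime) (h : p ∉ S) (e : ℕ) : Out S (p ^ e) := by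
  intro q hq hd
  rwa [(Nat.prime_dvd_prime_iff_eq hq hp).1 (hq.dvd_of_dvd_pow hd)]

theorem in_mul {S : Set ℕ} {a b : ℕ} (ha : In S a) (hb : In S b) : In S (a * b) := by
  intro q hq hd
  rcases (Nat.Prime.dvd_mul hq).1 hd with h | h
  · exact ha q hq h
  · exact hb q hq h

theorem up_P (p : ℕ) [NeZero p] {W : Type} [Group W] [Finite W] {P Q : ℕ → Prop} {m : ℕ}
    (hP : ∀ e, P (p ^ e)) (h : Ser W P Q m) : Ser (L p W) P Q m :=
  (ser_lift _ (pr_surj p W) h).1 (by rw [card_ker]; exact hP _)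

theorem up_Q (p : ℕ) [NeZero p] {W : Type} [Group W] [Finite W] {P Q : ℕ → Prop} {m : ℕ}
    (hQ : ∀ e, Q (p ^ e)) (h : Ser W P Q m) : Ser (L p W) P Q (m + 1) :=
  (ser_lift _ (pr_surj p W) h).2 (by rw [card_ker]; exact hQ _)

theorem drop2 (p r : ℕ) [hp : Fact p.Prime] [hr : Fact r.Prime] {W : Type} [Group W] [Finite W]
    {S : Set ℕ} (h1 : p ∈ S) (h2 : r ∉ S) {m : ℕ} (h : Ser (L p (L r W)) (Out S) (In S) m) :
    ∃ m', m = m' + 1 ∧ Ser W (Out S) (In S) m' := by
  obtain ⟨m', hm, hs⟩ := ser_drop (pr p (L r W)) (pr_surj _ _) (ker_ne _ _) (self_cent _ _)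
    (by rw [card_ker]; exact in_pow hp.out h1 _) (pr r W).ker (self_cent _ _)
    (by rw [card_ker]; exact out_pow hr.out h2 _) h
  exact ⟨m', hm, ser_down _ (pr_surj _ _) hs⟩

instance five : Fact (Nat.Prime 5) := ⟨by norm_num⟩

/-- top part of the tower -/
abbrev W3 : Type := L 3 (L 5 (L 3 (L 5 PUnit)))
/-- the whole tower -/
abbrev W7 : Type := L 2 (L 5 (L 2 (L 5 W3)))

theorem lower {m : ℕ} (h : Ser W7 (Out {2, 3}) (In {2, 3}) m) : 4 ≤ m := by
  obtain ⟨m1, e1, h1⟩ := drop2 2 5 (by simp) (by simp) h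
  obtain ⟨m2, e2, h2⟩ := drop2 2 5 (by simp) (by simp) h1
  obtain ⟨m3, e3, h3⟩ := drop2 3 5 (by simp) (by simp) h2
  obtain ⟨m4, e4, _⟩ := drop2 3 5 (by simp) (by simp) h3
  omega

theorem hin (p : ℕ) [hp : Fact p.Prime] {W : Type} [Group W] [Finite W] {S : Set ℕ} (h1 : p ∈ S)
    (h : ∃ H : Subgroup W, Hall S H) : ∃ H : Subgroup (L p W), Hall S H :=
  hall_in _ (pr_surj p W) (by rw [card_ker]; exact in_pow hp.out h1 _) h

theorem hout (p : ℕ) [hp : Fact p.Prime] {W : Type} [Group W] [Finite W] {S : Set ℕ} (h1 : p ∉ S)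
    (h : ∃ H : Subgroup W, Hall S H) : ∃ H : Subgroup (L p W), Hall S H :=
  hall_out (pr p W) RegularWreathProduct.inl (fun _ => rfl)
    (by rw [card_ker]; exact out_pow hp.out h1 _) h

theorem hall7 : ∃ H : Subgroup W7, Hall {2, 3} H := by
  refine hin 2 (by simp) (hout 5 (by simp) (hin 2 (by simp) (hout 5 (by simp)
    (hin 3 (by simp) (hout 5 (by simp) (hin 3 (by simp) (hout 5 (by simp) ⟨⊤, ?_, ?_⟩)))))))
  · intro q hq hd
    rw [card_top, Nat.card_unique] at hd
    exact absurd (Nat.le_of_dvd one_pos hd) (by have := hq.two_le; omega)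
  · intro q hq hd
    rw [index_top] at hd
    exact absurd (Nat.le_of_dvd one_pos hd) (by have := hq.two_le; omega)

theorem cardL (p : ℕ) [NeZero p] (W : Type) [Group W] [Finite W] :
    Nat.card (L p W) = p ^ Nat.card W * Nat.card W := by
  rw [card_eq (pr p W) (pr_surj p W), card_ker]

theorem inL (p : ℕ) [hp : Fact p.Prime] {W : Type} [Group W] [Finite W] {S : Set ℕ} (h1 : p ∈ S)
    (h : In S (Nat.card W)) : In S (Nat.card (L p W)) := by
  rw [cardL]; exact in_mul (in_pow hp.out h1 _) h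

theorem in_W3 : In {3, 5} (Nat.card W3) := by
  refine inL 3 (by simp) (inL 5 (by simp) (inL 3 (by simp) (inL 5 (by simp) ?_)))
  intro q hq hd
  rw [Nat.card_unique] at hd
  exact absurd (Nat.le_of_dvd one_pos hd) (by have := hq.two_le; omega)

/-- projection to the top part -/
def phi : W7 →* W3 := (pr 5 _).comp ((pr 2 _).comp ((pr 5 _).comp (pr 2 _)))

theorem phi_surj : Function.Surjective phi :=
  (pr_surj _ _).comp ((pr_surj _ _).comp ((pr_surj _ _).comp (pr_surj _ _)))

theorem in_ker : In {2, 5} (Nat.card phi.ker) := by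
  have e1 := card_eq phi phi_surj
  have e2 : ∃ a b c d : ℕ, Nat.card W7 = (2 ^ a * (5 ^ b * (2 ^ c * 5 ^ d))) * Nat.card W3 := by
    refine ⟨Nat.card (L 5 (L 2 (L 5 W3))), Nat.card (L 2 (L 5 W3)), Nat.card (L 5 W3),
      Nat.card W3, ?_⟩
    have a1 := cardL 2 (L 5 (L 2 (L 5 W3)))
    have a2 := cardL 5 (L 2 (L 5 W3))
    have a3 := cardL 2 (L 5 W3)
    have a4 := cardL 5 W3
    generalize Nat.card W7 = x1 at *
    generalize Nat.card (L 5 (L 2 (L 5 W3))) = x2 at *
    generalize Nat.card (L 2 (L 5 W3)) = x3 at *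
    generalize Nat.card (L 5 W3) = x4 at *
    generalize Nat.card W3 = x5 at *
    generalize 2 ^ x2 = y1 at *
    generalize 5 ^ x3 = y2 at *
    generalize 2 ^ x4 = y3 at *
    generalize 5 ^ x5 = y4 at *
    rw [a1, a2, a3, a4]; ring
  obtain ⟨a, b, c, d, e2⟩ := e2
  rw [e2] at e1
  rw [← Nat.eq_of_mul_eq_mul_right Nat.card_pos e1]
  have h2 : Nat.Prime 2 := by norm_num
  have h5 : Nat.Prime 5 := by norm_num
  exact in_mul (in_pow h2 (by simp) _) (in_mul (in_pow h5 (by simp) _)
    (in_mul (in_pow h2 (by simp) _) (in_pow h5 (by simp) _)))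

theorem fit {H : Subgroup W7} (h : In {2, 3} (Nat.card H)) :
    ∃ t : ℕ → Subgroup H, t 0 = ⊥ ∧ t 2 = ⊤ ∧ (∀ i ≤ 2, (t i).Normal) ∧
        (∀ i < 2, t i ≤ t (i + 1)) ∧
        ∀ i < 2, ∃ c : ℕ, (fun K : Subgroup H => ⁅K, t (i + 1)⁆)^[c] (t (i + 1)) ≤ t i := by
  let N : Subgroup H := (phi.comp H.subtype).ker
  refine ⟨fun i => if i = 0 then ⊥ else if i = 1 then N else ⊤, by simp, by simp, ?_, ?_, ?_⟩
  · intro i _
    dsimp only
    split_ifs <;> infer_instance
  · intro i hi
    interval_cases i <;> simp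
  · intro i hi
    interval_cases i
    · simp only [zero_add, one_ne_zero, if_false, if_true]
      have hd1 : Nat.card N ∣ Nat.card H := card_subgroup_dvd_card N
      have hd2 : Nat.card N ∣ Nat.card phi.ker := by
        have : N.map H.subtype ≤ phi.ker := by
          rintro _ ⟨x, hx, rfl⟩
          exact hx
        rw [← card_map_of_injective (K := N) H.subtype_injective]
        exact card_dvd_of_le this
      have := Nat.eq_prime_pow_of_unique_prime_dvd (n := Nat.card N) (p := 2) Nat.card_pos.ne'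
        (by
          intro q hq hd
          have a1 := h q hq (hd.trans hd1)
          have a2 := in_ker q hq (hd.trans hd2)
          simp only [Set.mem_insert_iff, Set.mem_singleton_iff] at a1 a2
          omega)
      exact nil ⊥ N (p := 2) (by norm_num) (by rw [relIndex_bot_left]; exact this)
    · simp only [one_ne_zero, if_false, if_true, Nat.reduceAdd, OfNat.ofNat_ne_zero,
        OfNat.ofNat_ne_one]
      have hd1 : N.index ∣ Nat.card H := index_dvd_card N
      have hd2 : N.index ∣ Nat.card W3 := by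
        rw [index_ker]; exact card_subgroup_dvd_card _
      have := Nat.eq_prime_pow_of_unique_prime_dvd (n := N.index) (p := 3)
        index_ne_zero_of_finite
        (by
          intro q hq hd
          have a1 := h q hq (hd.trans hd1)
          have a2 := in_W3 q hq (hd.trans hd2)
          simp only [Set.mem_insert_iff, Set.mem_singleton_iff] at a1 a2
          omega)
      exact nil N ⊤ (p := 3) (by norm_num) (by rw [relIndex_top_right]; exact this)

theorem sol : Ser W7 (fun n => Out {2, 3} n ∨ ∃ p ∈ ({2, 3} : Set ℕ), ∃ e : ℕ, n = p ^ e)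
    (fun _ => False) 0 := by
  have h5 : ∀ e, Out {2, 3} (5 ^ e) ∨ ∃ p ∈ ({2, 3} : Set ℕ), ∃ e' : ℕ, 5 ^ e = p ^ e' :=
    fun e => Or.inl (out_pow (by norm_num) (by simp) e)
  have h2 : ∀ e, Out {2, 3} (2 ^ e) ∨ ∃ p ∈ ({2, 3} : Set ℕ), ∃ e' : ℕ, 2 ^ e = p ^ e' :=
    fun e => Or.inr ⟨2, by simp, e, rfl⟩
  have h3 : ∀ e, Out {2, 3} (3 ^ e) ∨ ∃ p ∈ ({2, 3} : Set ℕ), ∃ e' : ℕ, 3 ^ e = p ^ e' :=
    fun e => Or.inr ⟨3, by simp, e, rfl⟩
  exact up_P 2 h2 (up_P 5 h5 (up_P 2 h2 (up_P 5 h5 (up_P 3 h3 (up_P 5 h5 (up_P 3 h3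
    (up_P 5 h5 (ser_triv _ _ _))))))))

theorem nd {p r : ℕ} (hp : p.Prime) (hr : r.Prime) (h : p ≠ r) (e : ℕ) : ¬ p ∣ r ^ e :=
  fun hd => h ((Nat.prime_dvd_prime_iff_eq hp hr).1 (hp.dvd_of_dvd_pow hd))

theorem len2 : Ser W7 (fun n => ¬ 2 ∣ n) (fun n => ∃ e : ℕ, n = 2 ^ e) 2 := by
  have h5 := nd (p := 2) (r := 5) (by norm_num) (by norm_num) (by norm_num)
  have h3 := nd (p := 2) (r := 3) (by norm_num) (by norm_num) (by norm_num)
  exact up_Q 2 (fun e => ⟨e, rfl⟩) (up_P 5 h5 (up_Q 2 (fun e => ⟨e, rfl⟩) (up_P 5 h5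
    (up_P 3 h3 (up_P 5 h5 (up_P 3 h3 (up_P 5 h5 (ser_triv _ _ _))))))))

theorem len3 : Ser W7 (fun n => ¬ 3 ∣ n) (fun n => ∃ e : ℕ, n = 3 ^ e) 2 := by
  have h5 := nd (p := 3) (r := 5) (by norm_num) (by norm_num) (by norm_num)
  have h2 := nd (p := 3) (r := 2) (by norm_num) (by norm_num) (by norm_num)
  exact up_P 2 h2 (up_P 5 h5 (up_P 2 h2 (up_P 5 h5
    (up_Q 3 (fun e => ⟨e, rfl⟩) (up_P 5 h5 (up_Q 3 (fun e => ⟨e, rfl⟩)
      (up_P 5 h5 (ser_triv _ _ _))))))))

end Pool.Agent.H.MP_bbd7c2_al
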